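import Mathlib
import Pool.Agent.Helper30.KC.GoalsI
import Pool.Agent.Helper23.KC.CO

/-!
Project KI (MP_bf413e_co), packet DW: the undeleted part.
-/

set_option autoImplicit false

namespace Pool.Agent.Helper92.KI

open scoped Classical
open Finset
open Pool.Agent.Helper94.KC
open Pool.Agent.Helper30.KC
open Pool.Agent.Helper30.ML (Mac rs del StmtBR StmtMEY StmtD4 StmtSU)
open Pool.Agent.Helper23.KC (gr_adj dR_mono)

variable {V : Type} [Fintype V]

omit [Fintype V] in
theorem del_rs (G : SimpleGraph V) (S : Finset V) (x : V) :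
    del (rs G (S : Set V)) x = rs G ((S.erase x : Finset V) : Set V) := by
  ext a b
  show ((G.Adj a b ∧ a ∈ (S : Set V) ∧ b ∈ (S : Set V)) ∧ a ≠ x ∧ b ≠ x) ↔
    (G.Adj a b ∧ a ∈ ((S.erase x : Finset V) : Set V) ∧ b ∈ ((S.erase x : Finset V) : Set V))
  simp only [Finset.mem_coe, Finset.mem_erase]
  tauto

theorem dR_rs (G : SimpleGraph V) (S : Finset V) (x : V) :
    dR (rs G (S : Set V)) univ x ≤ dR G S x := by
  unfold dR
  refine Finset.card_le_card fun y hy => ?_
  rw [mem_filter] at hy ⊢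
  exact ⟨hy.2.2.2, hy.2.1⟩

theorem grow (hD4 : StmtD4) (G : SimpleGraph V) (R S₀ : Finset V)
    (h5 : ∀ x ∈ R, 5 ≤ dR G R x)
    (hmax : ∀ R' ⊆ S₀, (∀ x ∈ R', 5 ≤ dR G R' x) → R' ⊆ R)
    (hR : AllEq (rs G (R : Set V))) :
    ∀ (k : ℕ) (S : Finset V), R ⊆ S → S ⊆ S₀ → (S \ R).card = k → AllEq (rs G (S : Set V)) := by
  intro k
  induction k with
  | zero =>
    intro S h1 h2 h3
    rw [Finset.card_eq_zero, Finset.sdiff_eq_empty_iff_subset] at h3
    rw [Finset.Subset.antisymm h3 h1]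
    exact hR
  | succ k ih =>
    intro S h1 h2 h3
    have h4 : ¬ ∀ x ∈ S, 5 ≤ dR G S x := by
      intro h
      have h5 := hmax S h2 h
      rw [Finset.sdiff_eq_empty_iff_subset.2 h5] at h3
      simp at h3
    push Not at h4
    obtain ⟨x, hxS, hx⟩ := h4
    have hxR : x ∉ R := by
      intro hxR
      have h6 := h5 x hxR
      have h7 : dR G R x ≤ dR G S x := dR_mono (fun y hy _ => h1 hy)
      omega
    refine hD4 V (rs G (S : Set V)) x ?_ ?_
    · have := dR_rs G S x
      omega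
    · rw [del_rs]
      refine ih (S.erase x) ?_ ?_ ?_
      · intro y hy
        rw [Finset.mem_erase]
        refine ⟨?_, h1 hy⟩
        rintro rfl
        exact hxR hy
      · exact (Finset.erase_subset _ _).trans h2
      · have h6 : (S.erase x) \ R = (S \ R).erase x := by
          ext y
          simp only [Finset.mem_sdiff, Finset.mem_erase]
          tauto
        rw [h6, Finset.card_erase_of_mem (Finset.mem_sdiff.2 ⟨hxS, hxR⟩), h3]
        rfl

theorem pDW (hD4 : StmtD4) : StmtDW := by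
  intro V _ T hT B hB hBc
  obtain ⟨b, hb⟩ := hB
  let Fam : Finset (Finset V) := univ.filter fun R' => R' ⊆ univ \ B ∧ ∀ x ∈ R', 5 ≤ dR (sk T) R' x
  let R : Finset V := Fam.sup id
  have hsub : ∀ R' ∈ Fam, R' ⊆ R := fun R' h => Finset.le_sup (f := id) h
  have hmem : ∀ x ∈ R, ∃ R' ∈ Fam, x ∈ R' := by
    intro x hx
    obtain ⟨R', h1, h2⟩ := Finset.mem_sup.1 hx
    exact ⟨R', h1, h2⟩
  have hR1 : R ⊆ univ \ B := by
    intro x hx
    obtain ⟨R', h1, h2⟩ := hmem x hx
    exact (Finset.mem_filter.1 h1).2.1 h2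
  have hR2 : ∀ x ∈ R, 5 ≤ dR (sk T) R x := by
    intro x hx
    obtain ⟨R', h1, h2⟩ := hmem x hx
    refine le_trans ((Finset.mem_filter.1 h1).2.2 x h2) ?_
    exact dR_mono (fun y hy _ => hsub R' h1 hy)
  have hR3 : ∀ R' ⊆ univ \ B, (∀ x ∈ R', 5 ≤ dR (sk T) R' x) → R' ⊆ R := by
    intro R' h1 h2
    exact hsub R' (Finset.mem_filter.2 ⟨Finset.mem_univ _, h1, h2⟩)
  let U : Finset V := univ.filter fun x => (rs (sk T) (Rᶜ : Set V)).Reachable b x
  have hU : ∀ x, x ∈ U ↔ (rs (sk T) (Rᶜ : Set V)).Reachable b x := by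
    intro x
    show x ∈ univ.filter _ ↔ _
    rw [Finset.mem_filter]
    simp
  have hbR : b ∉ R := by
    intro h
    exact (Finset.mem_sdiff.1 (hR1 h)).2 hb
  have hUR : ∀ x ∈ U, x ∉ R := by
    intro x hx
    rw [hU, SimpleGraph.reachable_iff_reflTransGen] at hx
    cases hx with
    | refl => exact hbR
    | tail h1 h2 => exact h2.2.2
  have hbU : b ∈ U := (hU b).2 (SimpleGraph.Reachable.refl _)
  have hstep : ∀ x y, x ∈ U → y ∉ R → (sk T).Adj x y → y ∈ U := by
    intro x y hx hy hxy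
    rw [hU] at hx ⊢
    refine hx.trans (SimpleGraph.Adj.reachable ?_)
    exact ⟨hxy, hUR x ((hU x).2 hx), hy⟩
  have hBU : B ⊆ U := by
    intro x hx
    have h1 := hBc b hb x hx
    rw [SimpleGraph.reachable_iff_reflTransGen] at h1
    clear hx
    induction h1 with
    | refl => exact hbU
    | tail h1 h2 ih =>
      rw [gr_adj] at h2
      refine hstep _ _ ih ?_ h2.1
      intro h3
      exact (Finset.mem_sdiff.1 (hR1 h3)).2 h2.2.2
  have hUU : univ \ (univ \ U) = U := Finset.sdiff_sdiff_eq_self (Finset.subset_univ _)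
  refine ⟨R, univ \ U, ?_, ?_, ?_, ?_, ?_⟩
  · intro x hx
    rw [Finset.mem_sdiff]
    exact ⟨Finset.mem_univ _, fun h => hUR x h hx⟩
  · rw [Finset.disjoint_left]
    intro x hx hxB
    exact (Finset.mem_sdiff.1 hx).2 (hBU hxB)
  · intro hall
    exact grow hD4 (sk T) R (univ \ B) hR2 hR3 hall _ (univ \ B) hR1 (le_refl _) rfl
  · rw [hUU]
    have h1 : ∀ x ∈ U, (gr (edW T U)).Reachable b x := by
      intro x hx
      rw [hU, SimpleGraph.reachable_iff_reflTransGen] at hx
      induction hx with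
      | refl => exact SimpleGraph.Reachable.refl _
      | tail h1 h2 ih =>
        refine ih.trans (SimpleGraph.Adj.reachable ?_)
        rw [gr_adj]
        rw [← SimpleGraph.reachable_iff_reflTransGen] at h1
        have h3 := (hU _).2 h1
        exact ⟨h2.1, h3, hstep _ _ h3 h2.2.2 h2.1⟩
    intro x hx y hy
    exact (h1 x hx).symm.trans (h1 y hy)
  · rintro x hx ⟨u, hu, hxu⟩
    have hxU : x ∉ U := (Finset.mem_sdiff.1 hx).2
    have huU : u ∈ U := by
      by_contra h
      exact hu (Finset.mem_sdiff.2 ⟨Finset.mem_univ _, h⟩)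
    have hxR : x ∈ R := by
      by_contra h
      exact hxU (hstep u x huU h hxu.symm)
    refine le_trans (hR2 x hxR) (dR_mono (fun y hy _ => ?_))
    rw [Finset.mem_sdiff]
    exact ⟨Finset.mem_univ _, fun h => hUR y h hy⟩

end Pool.Agent.Helper92.KI
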