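import Mathlib
import Pool.Agent.Helper30.KC.GoalsI
import Pool.Agent.Helper23.KC.CO

/-!
Project KI (MP_bf413e_co), packet UH: hubs at the wall.
-/

set_option autoImplicit false

namespace Pool.Agent.Helper92.KI

open scoped Classical
open Finset
open Pool.Agent.Helper94.KC
open Pool.Agent.Helper30.KC
open Pool.Agent.Helper23.KC (gr_adj)

theorem cross {V : Type} {G : SimpleGraph V} {W : Finset V} {x y : V} (h : G.Reachable x y)
    (hx : x ∈ W) (hy : y ∉ W) : ∃ a b, G.Adj a b ∧ a ∈ W ∧ b ∉ W := by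
  rw [SimpleGraph.reachable_iff_reflTransGen] at h
  induction h with
  | refl => exact absurd hx hy
  | @tail b c h1 h2 ih =>
    by_cases hb : b ∈ W
    · exact ⟨b, c, h2, hb, hy⟩
    · exact ih hb

theorem pUH (hGH : StmtGH) : StmtUH := by
  intro V _ T W hT hW
  have p1 : ∀ x ∈ W, ∀ u u', u ∉ W → u' ∉ W → (lk T x).Adj u u' → 7 ≤ dg T x := by
    intro x hx u u' hu hu' h
    obtain ⟨h1, h2, h3, t, ht, hxt, hut, hut'⟩ := h
    have hadj : (sk T).Adj x u := ⟨h2.symm, t, ht, hxt, hut⟩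
    exact hGH V T W x u u' (hW.stk x hx ⟨u, hu, hadj⟩) hu hu' ⟨h1, h2, h3, t, ht, hxt, hut, hut'⟩ hT
  have p3 : ∀ h u h', u ∈ NK T h → 7 ≤ dg T h' → (sk T).Adj u h' → (HG T).Reachable h h' := by
    intro h u h' hu hd hadj
    obtain ⟨h₁, hr, hd₁, ha₁⟩ := (Finset.mem_filter.1 hu).2
    by_cases heq : h₁ = h'
    · rw [← heq]; exact hr
    · refine hr.trans (SimpleGraph.Adj.reachable ?_)
      exact ⟨heq, hd₁, hd, u, ha₁.symm, hadj.symm⟩
  refine ⟨p1, ?_, p3, ?_⟩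
  · intro x hx u hu hadj
    have hy : ∃ y, y ∉ W ∧ y ≠ u := by
      obtain ⟨a, a', ha, ha', haa⟩ := hW.two
      by_cases h : a = u
      · refine ⟨a', ha', ?_⟩
        rintro rfl
        exact haa.ne h
      · exact ⟨a, ha, h⟩
    obtain ⟨y, hyW, hyu⟩ := hy
    have hr := hW.cu u (Finset.mem_sdiff.2 ⟨Finset.mem_univ _, hu⟩) y
      (Finset.mem_sdiff.2 ⟨Finset.mem_univ _, hyW⟩)
    have hu' : ∃ u', u' ∉ W ∧ (sk T).Adj u u' := by
      obtain ⟨p⟩ := hr
      cases p with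
      | nil => exact absurd rfl hyu
      | @cons _ c _ h1 h2 =>
        rw [gr_adj] at h1
        exact ⟨c, (Finset.mem_sdiff.1 h1.2.2).2, h1.1⟩
    obtain ⟨u', hu'W, hadj'⟩ := hu'
    have hl := hT.link u x u' hadj.symm hadj'
    obtain ⟨a, b, hab, haW, hbW⟩ := cross hl hx hu'W
    obtain ⟨h1, h2, h3, t, ht, hut, hat, hbt⟩ := hab
    refine ⟨a, haW, ?_, ⟨h2.symm, t, ht, hut, hat⟩⟩
    exact p1 a haW u b hu hbW ⟨h3.symm, h2.symm, h1.symm, t, ht, hat, hut, hbt⟩
  · intro h t ht hne u hut u' hut' hu hu' hN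
    by_cases heq : u = u'
    · rw [← heq]; exact hN
    · obtain ⟨x, hx⟩ := hne
      rw [Finset.mem_inter] at hx
      have hux : u ≠ x := by
        rintro rfl
        exact hu hx.2
      have hux' : u' ≠ x := by
        rintro rfl
        exact hu' hx.2
      have hub := p1 x hx.2 u u' hu hu' ⟨heq, hux, hux', t, ht, hx.1, hut, hut'⟩
      have hr := p3 h u x hN hub ⟨hux, t, ht, hut, hx.1⟩
      unfold NK
      rw [Finset.mem_filter]
      exact ⟨Finset.mem_univ _, x, hr, hub, ⟨hux', t, ht, hut', hx.1⟩⟩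

end Pool.Agent.Helper92.KI
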